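import Mathlib
import Pool.Agent.X235.Clar.Main

/-! # Negative answer to MP_f7aa94_lc, Q1: a functional clarifying the well-orderings to which
`x ↦ O^x` is not continuously reducible, and not even Borel reducible -/

open Pool.Agent.Helper578.OG

namespace Pool.Agent.Results.MP_f7aa94_lc.NoBorelReduction

open Pool.Agent.X235.Clar

/-- (Not used in `result`.) The numbering used in the definition of Kleene's `O` is adequate: the
partial functions computed by the numbered programs with oracle `x` are exactly the partial
functions which are recursive in `x` in the sense of Mathlib. -/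
theorem numbering_adequate (x : Cantor) (f : ℕ →. ℕ) :
    TuringReducible f (orc x) ↔ ∃ e, ∀ n m, m ∈ f n ↔ Phi e x n m := by
  constructor
  · intro h
    obtain ⟨c, hc⟩ := exists_code (RecursiveIn.iff_nat.1 h)
    obtain ⟨e, he⟩ := prog_surj c
    refine ⟨e, fun n m => ?_⟩
    rw [Phi, he, hc]
  · rintro ⟨e, he⟩
    have h1 : f = (prog e).eval (orc x) := by
      funext n
      exact Part.ext fun m => he n m
    have h2 : ∀ c : OCode, Nat.RecursiveIn {orc x} (c.eval (orc x)) := by
      intro c
      induction c with
      | zero => exact Nat.RecursiveIn.zero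
      | succ => exact Nat.RecursiveIn.succ
      | left => exact Nat.RecursiveIn.left
      | right => exact Nat.RecursiveIn.right
      | oracle => exact Nat.RecursiveIn.oracle _ rfl
      | pair a b iha ihb => exact iha.pair ihb
      | comp a b iha ihb => exact iha.comp ihb
      | prec a b iha ihb => exact iha.prec ihb
      | rfind a iha => exact iha.rfind
    rw [TuringReducible, RecursiveIn.iff_nat, h1]
    exact h2 _

/-- There is a functional `F` which clarifies the class of well-orderings and to which the
functional `x ↦ O^x` is neither continuously nor Borel reducible. -/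
theorem result : ∃ F : Cantor → Cantor, Clarifies F WellOrderings ∧
    (¬ ∃ R₀ R₁ : Cantor → Cantor, Continuous R₀ ∧ Continuous R₁ ∧
      ∀ x, R₁ (F (R₀ x)) = KleeneO x) ∧
    (¬ ∃ R₀ R₁ : Cantor → Cantor, Measurable R₀ ∧ Measurable R₁ ∧
      ∀ x, R₁ (F (R₀ x)) = KleeneO x) := by
  refine ⟨Fun, clarifies, ?_, no_borel_reduction⟩
  rintro ⟨R₀, R₁, h0, h1, h⟩
  exact no_borel_reduction ⟨R₀, R₁, h0.measurable, h1.measurable, h⟩

end Pool.Agent.Results.MP_f7aa94_lc.NoBorelReduction
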